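import Pool.Agent.P.MP_0b9bd1_al.Main

/-! In the ring of `Main`, every finitely generated ideal of finite projective dimension is
generated by an idempotent. -/

set_option autoImplicit false

open CategoryTheory Filter IsLocalRing

namespace Pool.Agent.P.MP_0b9bd1_al

section Syz

variable {R : Type} [CommRing R] {m : Ideal R} [hm : m.IsMaximal]

theorem exists_fun {N : Type} [AddCommGroup N] [Module R N] {x : N}
    (hx : x ∉ (m • ⊤ : Submodule R N)) : ∃ l : N →ₗ[R] R ⧸ m, l x ≠ 0 := by
  let _ := Ideal.Quotient.field m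
  obtain ⟨f, hf⟩ := Module.Projective.exists_dual_ne_zero (R ⧸ m)
    (x := (m • ⊤ : Submodule R N).mkQ x) fun h => hx ((Submodule.Quotient.mk_eq_zero _).1 h)
  exact ⟨f.restrictScalars R ∘ₗ (m • ⊤ : Submodule R N).mkQ, hf⟩

theorem syz_step {t : R} (ht : t ∈ m) (ht2 : t ∉ m * m) (htt : t * t = 0) {F N : Type}
    [AddCommGroup F] [Module R F] [AddCommGroup N] [Module R N] [Module.Projective R F]
    (π : F →ₗ[R] N) (hπ : Function.Surjective π) {x : N} (hx : x ∉ (m • ⊤ : Submodule R N))
    (htx : t • x = 0) :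
    ∃ y : LinearMap.ker π, y ∉ (m • ⊤ : Submodule R (LinearMap.ker π)) ∧ t • y = 0 := by
  obtain ⟨l, hl⟩ := exists_fun hx
  obtain ⟨x, rfl⟩ := hπ x
  obtain ⟨μ, hμ⟩ := Module.projective_lifting_property m.mkQ (l ∘ₗ π) m.mkQ_surjective
  have hμ' : ∀ z, Ideal.Quotient.mk m (μ z) = l (π z) := fun z => LinearMap.congr_fun hμ z
  refine ⟨⟨t • x, by rw [LinearMap.mem_ker, map_smul, htx]⟩, fun h => ?_,
    Subtype.ext (by simp [smul_smul, htt])⟩
  have h1 : ∀ y ∈ (m • ⊤ : Submodule R (LinearMap.ker π)), μ y.1 ∈ m * m := fun y hy => by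
    refine Submodule.smul_induction_on hy (fun r hr z _ => ?_) fun a b ha hb => ?_
    · rw [SetLike.val_smul, map_smul]
      refine Ideal.mul_mem_mul hr (Ideal.Quotient.eq_zero_iff_mem.1 ?_)
      rw [hμ', LinearMap.mem_ker.1 z.2, map_zero]
    · rw [Submodule.coe_add, map_add]
      exact add_mem ha hb
  have h2 := h1 _ h
  rw [map_smul, smul_eq_mul] at h2
  obtain ⟨a, b, hb, e⟩ := hm.exists_inv (x := μ x) fun h' =>
    hl (by rw [← hμ', Ideal.Quotient.eq_zero_iff_mem.2 h'])
  apply ht2
  have e2 : t = a * (t * μ x) + t * b := by linear_combination (-t) * e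
  rw [e2]
  exact add_mem (Ideal.mul_mem_left _ _ h2) (Ideal.mul_mem_mul ht hb)

theorem not_pd {t : R} (ht : t ∈ m) (ht2 : t ∉ m * m) (htt : t * t = 0) (n : ℕ) :
    ∀ (N : Type) [AddCommGroup N] [Module R N] (x : N), x ∉ (m • ⊤ : Submodule R N) → t • x = 0 →
      ¬ HasProjectiveDimensionLE (ModuleCat.of R N) n := by
  induction n with
  | zero =>
    intro N _ _ x hx htx h
    have : Module.Projective R N := (IsProjective.iff_projective N).2
      (projective_iff_hasProjectiveDimensionLT_one.2 h)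
    obtain ⟨y, hy, -⟩ := syz_step ht ht2 htt LinearMap.id Function.surjective_id hx htx
    exact hy ((show y = 0 from Subtype.ext y.2) ▸ zero_mem _)
  | succ n ih =>
    intro N _ _ x hx htx h
    have hs := Finsupp.linearCombination_id_surjective R N
    obtain ⟨y, hy, hty⟩ := syz_step ht ht2 htt _ hs hx htx
    have h1 := (LinearMap.shortExact_shortComplexKer hs).hasProjectiveDimensionLT_X₃_iff n
      ((IsProjective.iff_projective (N →₀ R)).1 inferInstance)
    exact ih (LinearMap.ker (Finsupp.linearCombination R (id : N → N))) y hy hty (h1.1 h)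

end Syz

section Glue

variable {D : Type} [CommRing D] [IsLocalRing D]
  (hzd : ∀ a ∈ maximalIdeal D, ∃ t ∈ maximalIdeal D,
    t ∉ maximalIdeal D * maximalIdeal D ∧ t * t = 0 ∧ t * a = 0)
include hzd

theorem map_eq_bot_all {I : Ideal (Rg D)} (hI : I.FG) {n : ℕ}
    (hpd : HasProjectiveDimensionLE (ModuleCat.of (Rg D) I) n)
    (hm : ∀ g ∈ I, pi1 g ∈ maximalIdeal D) : ∀ g ∈ I, pi1 g = 0 := by
  have hsurj : Function.Surjective (pi1 : Rg D →+* D) := fun d => ⟨cst d, rfl⟩
  let m : Ideal (Rg D) := (maximalIdeal D).comap pi1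
  have : m.IsMaximal := Ideal.comap_isMaximal_of_surjective _ hsurj
  have hmm : ∀ J : Ideal (Rg D), ∀ g ∈ m * J, pi1 g ∈ maximalIdeal D * J.map pi1 := by
    intro J g hg
    have := Ideal.mem_map_of_mem pi1 hg
    rw [Ideal.map_mul] at this
    exact Ideal.mul_mono_left Ideal.map_comap_le this
  have h1 : I.map pi1 = ⊥ := by
    refine Submodule.eq_bot_of_le_smul_of_le_jacobson_bot (maximalIdeal D) _ (hI.map _)
      (Ideal.map_le_iff_le_comap.2 fun g hg => ?_) (maximalIdeal_le_jacobson _)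
    by_contra hne
    obtain ⟨t, ht, ht2, htt, htg⟩ := hzd _ (hm g hg)
    refine not_pd (m := m) (t := hat t ht) ht
      (fun h => ht2 (Ideal.mul_mono_right Ideal.map_comap_le (hmm m _ h)))
      (ext_Rg (by simpa using htt) fun k => by simp) n I ⟨g, hg⟩ (fun h => hne (hmm I g ?_))
      (Subtype.ext (ext_Rg (by simpa using htg) fun k => by simp)) hpd
    simpa using (Submodule.mem_smul_top_iff m I ⟨g, hg⟩).1 h
  exact fun g hg => Ideal.mem_bot.1 (h1 ▸ Ideal.mem_map_of_mem pi1 hg)

theorem weakly_lee_all (n : ℕ) (I : Ideal (Rg D)) (hI : I.FG)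
    (hpd : HasProjectiveDimensionLE (ModuleCat.of (Rg D) I) n) :
    Module.FinitePresentation (Rg D) I := by
  have hle : I ≤ I * I := by
    by_cases hm : ∀ g ∈ I, pi1 g ∈ maximalIdeal D
    · exact fun g hg => mem_sq hg (map_eq_bot_all hzd hI hpd hm g hg)
    · push Not at hm
      obtain ⟨u, hu, hu'⟩ := hm
      obtain ⟨v, hv⟩ := (notMem_maximalIdeal.1 hu').exists_right_inv
      intro g hg
      have e : g = g * (u * cst v) + g * (1 - u * cst v) := by ring
      rw [e]
      exact add_mem (Ideal.mul_mem_mul hg (I.mul_mem_right _ hu))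
        (mem_sq (I.mul_mem_right _ hg) (by simp [hv]))
  obtain ⟨e, he, rfl⟩ := (I.isIdempotentElem_iff_of_fg hI).1 (le_antisymm Ideal.mul_le_left hle)
  have : Module.Finite (Rg D) (Submodule.span (Rg D) {e}) := Module.Finite.iff_fg.2 hI
  have : Module.Projective (Rg D) (Submodule.span (Rg D) {e}) := by
    refine Module.Projective.of_split (Submodule.span (Rg D) {e}).subtype
      (LinearMap.toSpanSingleton (Rg D) _ ⟨e, Submodule.mem_span_singleton_self e⟩) ?_
    ext ⟨x, hx⟩ : 1
    obtain ⟨a, rfl⟩ := Submodule.mem_span_singleton.1 hx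
    apply Subtype.ext
    show (a * e) * e = a * e
    rw [mul_assoc, he.eq]
  exact Module.finitePresentation_of_projective _ _

end Glue

theorem zero_div_all (d : Dd) (hd : d ∈ maximalIdeal Dd) : ∃ t ∈ maximalIdeal Dd,
    t ∉ maximalIdeal Dd * maximalIdeal Dd ∧ t * t = 0 ∧ t * d = 0 := by
  classical
  obtain ⟨p, hp⟩ := exists_idx (mem_max.1 hd)
  refine ⟨TrivSqZeroExt.inr (Pi.single p 1), mem_max.2 (by simp), fun h => ?_,
    TrivSqZeroExt.inr_mul_inr _ _ _, ?_⟩
  · have h1 : ∀ z ∈ maximalIdeal Dd * maximalIdeal Dd,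
        z.snd p ∈ (maximalIdeal A).map (Ideal.Quotient.mk p.1.asIdeal) := fun z hz => by
      refine Submodule.mul_induction_on hz (fun a ha b hb => ?_) fun a b ha hb => add_mem ha hb
      simp only [TrivSqZeroExt.snd_mul, op_smul_eq_smul, Pi.add_apply, Pi.smul_apply,
        Algebra.smul_def]
      exact add_mem (Ideal.mul_mem_right _ _ (Ideal.mem_map_of_mem _ (mem_max.1 ha)))
        (Ideal.mul_mem_right _ _ (Ideal.mem_map_of_mem _ (mem_max.1 hb)))
    have h2 := h1 _ h
    rw [TrivSqZeroExt.snd_inr, Pi.single_eq_same, ← map_one (Ideal.Quotient.mk p.1.asIdeal),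
      Ideal.mem_quotient_iff_mem (le_maximalIdeal p.1.2.ne_top)] at h2
    exact (maximalIdeal.isMaximal A).ne_top ((Ideal.eq_top_iff_one _).2 h2)
  · rw [mul_comm]
    ext : 1
    · simp
    · funext q
      simp only [TrivSqZeroExt.snd_mul, TrivSqZeroExt.snd_inr, TrivSqZeroExt.fst_inr,
        MulOpposite.op_zero, zero_smul, add_zero, TrivSqZeroExt.snd_zero, Pi.smul_apply,
        Pi.zero_apply]
      by_cases hq : q = p
      · subst hq
        rw [Pi.single_eq_same, Algebra.smul_def, mul_one]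
        exact Ideal.Quotient.eq_zero_iff_mem.2 hp
      · rw [Pi.single_eq_of_ne hq, smul_zero]

theorem main_all : ∃ (R : Type) (_ : CommRing R),
    (∀ (n : ℕ) (I : Ideal R), I.FG → HasProjectiveDimensionLE (ModuleCat.of R I) n →
      Module.FinitePresentation R I) ∧
    ∃ K : Submodule R (Fin 2 → R), K.FG ∧ HasProjectiveDimensionLE (ModuleCat.of R K) 1 ∧
      ¬ Module.FinitePresentation R K :=
  ⟨Rg Dd, inferInstance, weakly_lee_all zero_div_all,
    not_lee (x := TrivSqZeroExt.inl PowerSeries.X)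
      (y := TrivSqZeroExt.inl (PowerSeries.C PowerSeries.X))
      (mem_max.2 PowerSeries.X_prime.not_isUnit)
      (mem_max.2 fun h => PowerSeries.X_prime.not_isUnit
        (by simpa using h.map (PowerSeries.constantCoeff (R := PowerSeries ℚ)))) faithful⟩

end Pool.Agent.P.MP_0b9bd1_al
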