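import Pool.Agent.P.MP_0b9bd1_al.Main

/-! Over a commutative local ring a finitely generated module of projective dimension at most
one is finitely presented. -/

set_option autoImplicit false

open CategoryTheory IsLocalRing TensorProduct

namespace Pool.Agent.P.MP_0b9bd1_al.Loc

variable {R : Type} [CommRing R] [IsLocalRing R]

theorem no_fixed {P : Type} [AddCommGroup P] [Module R P] [hP : Module.Projective R P]
    (ψ : P →ₗ[R] P) (h : ∀ z, ψ z ∈ (maximalIdeal R • ⊤ : Submodule R P)) (z : P) (hz : ψ z = z) :
    z = 0 := by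
  classical
  obtain ⟨s, hs⟩ := Module.projective_def.1 hP
  have hm : ∀ y ∈ (maximalIdeal R • ⊤ : Submodule R P), ∀ i, s y i ∈ maximalIdeal R := by
    intro y hy i
    refine Submodule.smul_induction_on hy (fun r hr w _ => ?_) fun a b ha hb => ?_
    · rw [map_smul, Finsupp.smul_apply, smul_eq_mul]
      exact Ideal.mul_mem_right _ _ hr
    · rw [map_add, Finsupp.add_apply]
      exact add_mem ha hb
  have h1 : z = ∑ j ∈ (s z).support, s z j • j := by
    conv_lhs => rw [← hs z]
    rw [Finsupp.linearCombination_apply]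
    rfl
  let C : Ideal R := Ideal.span ((fun j => s z j) '' (s z).support)
  have hC : C = ⊥ := by
    refine Submodule.eq_bot_of_le_smul_of_le_jacobson_bot (maximalIdeal R) C
      (Submodule.fg_span ((Finset.finite_toSet _).image _)) ?_ (maximalIdeal_le_jacobson _)
    refine Ideal.span_le.2 ?_
    rintro _ ⟨i, -, rfl⟩
    have h3 : s z i = ∑ j ∈ (s z).support, s z j * s (ψ j) i := by
      conv_lhs => rw [← hz, h1]
      simp only [map_sum, map_smul, Finsupp.finsetSum_apply, Finsupp.smul_apply, smul_eq_mul]
    show s z i ∈ maximalIdeal R • C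
    rw [h3]
    refine Submodule.sum_mem _ fun j hj => ?_
    rw [mul_comm]
    exact Submodule.smul_mem_smul (hm _ (h j) i) (Ideal.subset_span ⟨j, hj, rfl⟩)
  rw [h1]
  refine Finset.sum_eq_zero fun j hj => ?_
  have h4 : s z j ∈ C := Ideal.subset_span ⟨j, hj, rfl⟩
  rw [hC, Ideal.mem_bot] at h4
  rw [h4, zero_smul]

theorem finite_of_inj {P N : Type} [AddCommGroup P] [Module R P] [Module.Projective R P]
    [AddCommGroup N] [Module R N] [Module.Finite R N] (i : P →ₗ[R] N)
    (hi : Function.Injective i) : Module.Finite R P := by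
  classical
  let w := Module.Free.chooseBasis (ResidueField R) (ResidueField R ⊗[R] P)
  obtain ⟨v, hv⟩ := (TensorProduct.mk_surjective R P (ResidueField R)
    residue_surjective).comp_left w
  have hli : LinearIndependent R v :=
    Module.IsLocalRing.linearIndependent_of_flat _ (by
      have := w.linearIndependent
      rwa [← hv] at this)
  have hfin := (hli.map' i (LinearMap.ker_eq_bot.2 hi)).finite
  have := Fintype.ofFinite (Module.Free.ChooseBasisIndex (ResidueField R) (ResidueField R ⊗[R] P))
  let g := Fintype.linearCombination R v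
  let c : P →ₗ[R] ResidueField R ⊗[R] P := TensorProduct.mk R (ResidueField R) P 1
  have hc : LinearMap.ker c = maximalIdeal R • ⊤ := LinearMap.ker_tensorProductMk P
  have hcv : ∀ j, c (v j) = w j := fun j => congrFun hv j
  have hcg : ∀ e, c (g e) = ∑ j, residue R (e j) • w j := fun e => by
    simp only [g, Fintype.linearCombination_apply, map_sum, map_smul, hcv]
    rfl
  have hsurj : Function.Surjective (c ∘ₗ g) := fun y => by
    choose e he using fun j => residue_surjective (R := R) (w.repr y j)
    exact ⟨e, by rw [LinearMap.comp_apply, hcg]; simp only [he]; exact w.sum_repr y⟩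
  obtain ⟨μ, hμ⟩ := Module.projective_lifting_property (c ∘ₗ g) c hsurj
  have hμ' : ∀ z, c (g (μ z)) = c z := fun z => LinearMap.congr_fun hμ z
  have h1 : ∀ e, c (g e) = 0 → e ∈ (maximalIdeal R • ⊤ : Submodule R (_ → R)) := fun e he => by
    rw [hcg] at he
    have h2 := Fintype.linearIndependent_iff.1 w.linearIndependent _ he
    rw [pi_eq_sum_univ e]
    exact Submodule.sum_mem _ fun j _ =>
      Submodule.smul_mem_smul ((residue_eq_zero_iff _).1 (h2 j)) Submodule.mem_top
  have h2 : Function.Surjective (μ ∘ₗ g) := by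
    rw [← LinearMap.range_eq_top, eq_top_iff]
    refine Submodule.le_of_le_smul_of_le_jacobson_bot Module.Finite.fg_top
      (maximalIdeal_le_jacobson _) fun e _ => ?_
    rw [← add_sub_cancel (μ (g e)) e]
    exact Submodule.add_mem_sup ⟨e, rfl⟩ (h1 _ (by rw [map_sub, map_sub, hμ', sub_self]))
  let E := LinearEquiv.ofBijective (μ ∘ₗ g)
    ⟨OrzechProperty.injective_of_surjective_endomorphism _ h2, h2⟩
  let ψ : P →ₗ[R] P := LinearMap.id - g ∘ₗ E.symm.toLinearMap ∘ₗ μ
  have hψ : ∀ z, ψ z = z - g (E.symm (μ z)) := fun z => rfl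
  have h3 : ∀ e, ψ (g e) = 0 := fun e => by
    rw [hψ, show μ (g e) = E e from rfl, E.symm_apply_apply, sub_self]
  have h4 : ∀ z, ψ z ∈ (maximalIdeal R • ⊤ : Submodule R P) := fun z => by
    have h5 : z - g (μ z) ∈ (maximalIdeal R • ⊤ : Submodule R P) := by
      rw [← hc, LinearMap.mem_ker, map_sub, hμ', sub_self]
    have h6 := Submodule.mem_map_of_mem (f := ψ) h5
    rw [Submodule.map_smul'', map_sub, h3, sub_zero] at h6
    exact Submodule.smul_mono le_rfl le_top h6
  refine Module.Finite.of_surjective g fun z => ⟨E.symm (μ z), ?_⟩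
  have h7 := no_fixed ψ h4 (ψ z) (by
    conv_lhs => rw [hψ z, map_sub, h3, sub_zero])
  rw [hψ, sub_eq_zero] at h7
  exact h7.symm

theorem fp_of_pd_le_one (K : Type) [AddCommGroup K] [Module R K] [Module.Finite R K]
    (h : HasProjectiveDimensionLE (ModuleCat.of R K) 1) : Module.FinitePresentation R K := by
  obtain ⟨a, f, hf⟩ := Module.Finite.exists_fin' R K
  have := (pd_iff f hf).1 h
  have := finite_of_inj (LinearMap.ker f).subtype Subtype.val_injective
  exact Module.finitePresentation_of_surjective f hf (Module.Finite.iff_fg.1 this)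

end Pool.Agent.P.MP_0b9bd1_al.Loc
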