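import Pool.Agent.P.MP_0b9bd1_al.All

/-! A local ring that is weakly Lee `n`-coherent for all finite `n` and not Lee `3`-coherent. -/

set_option autoImplicit false

open CategoryTheory Filter IsLocalRing

namespace Pool.Agent.P.MP_0b9bd1_al.Loc

noncomputable section

theorem pd_succ {R M N : Type} [Ring R] [AddCommGroup M] [Module R M] [AddCommGroup N] [Module R N]
    [Module.Projective R M] (f : M →ₗ[R] N) (hf : Function.Surjective f) (n : ℕ)
    (h : HasProjectiveDimensionLE (ModuleCat.of R (LinearMap.ker f)) n) :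
    HasProjectiveDimensionLE (ModuleCat.of R N) (n + 1) :=
  ((LinearMap.shortExact_shortComplexKer hf).hasProjectiveDimensionLT_X₃_iff n
    ((IsProjective.iff_projective M).1 inferInstance)).2 h

/-- An ideal that is the union of a chain `s i = s (i+1) ^ 2` has projective dimension one. -/
theorem pd_chain {R : Type} [CommRing R] (I : Ideal R) (s : ℕ → R) (hs : ∀ i, s i ∈ I)
    (hsq : ∀ i, s i = s (i + 1) * s (i + 1)) (hI : ∀ g ∈ I, ∃ i r, g = r * s i)
    (hann : ∀ i r, r * s i = 0 → r * s (i + 1) = 0) :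
    HasProjectiveDimensionLE (ModuleCat.of R I) 1 := by
  let π : (ℕ →₀ R) →ₗ[R] I := Finsupp.linearCombination R fun i => ⟨s i, hs i⟩
  let σ : (ℕ →₀ R) →ₗ[R] (ℕ →₀ R) :=
    Finsupp.linearCombination R fun i => Finsupp.single (i + 1) (s (i + 1))
  have hπ : ∀ i r, (π (Finsupp.single i r)).1 = r * s i := fun i r => by simp [π]
  have hσ : ∀ i r, σ (Finsupp.single i r) = Finsupp.single (i + 1) (r * s (i + 1)) := fun i r => by
    simp [σ]
  have hσ0 : ∀ c, σ c 0 = 0 ∧ ∀ j, σ c (j + 1) = c j * s (j + 1) := fun c => by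
    induction c using Finsupp.induction_linear with
    | zero => simp
    | add a b ha hb => simp [ha.1, hb.1, ha.2, hb.2, add_mul]
    | single i r =>
      rw [hσ]
      refine ⟨by simp, fun j => ?_⟩
      by_cases h : i = j
      · simp [h]
      · simp [Ne.symm h]
  let φ : (ℕ →₀ R) →ₗ[R] (ℕ →₀ R) := LinearMap.id - σ
  have hφ : ∀ c, φ c = c - σ c := fun c => rfl
  have hinj : Function.Injective φ := by
    rw [injective_iff_map_eq_zero]
    intro c hc
    rw [hφ, sub_eq_zero] at hc
    ext j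
    induction j with
    | zero => rw [hc, (hσ0 c).1]; rfl
    | succ j ih => rw [hc, (hσ0 c).2, ih]; simp
  have hsurj : Function.Surjective π := fun g => by
    obtain ⟨i, r, h⟩ := hI g.1 g.2
    exact ⟨Finsupp.single i r, Subtype.ext ((hπ i r).trans h.symm)⟩
  have h1 : ∀ c, π (φ c) = 0 := fun c => by
    induction c using Finsupp.induction_linear with
    | zero => simp
    | add a b ha hb => rw [map_add, map_add, ha, hb, add_zero]
    | single i r =>
      rw [hφ, hσ, map_sub, sub_eq_zero]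
      exact Subtype.ext (by rw [hπ, hπ, hsq i, mul_assoc])
  have h2 : ∀ u, ∀ᶠ N in atTop, ∃ r, u - Finsupp.single N r ∈ LinearMap.range φ := fun u => by
    induction u using Finsupp.induction_linear with
    | zero => exact Eventually.of_forall fun N => ⟨0, by simp⟩
    | add a b ha hb =>
      filter_upwards [ha, hb] with N ⟨r, h⟩ ⟨r', h'⟩
      refine ⟨r + r', ?_⟩
      rw [Finsupp.single_add, add_sub_add_comm]
      exact add_mem h h'
    | single i r =>
      refine eventually_atTop.2 ⟨i, fun N hN => ?_⟩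
      induction N, hN using Nat.le_induction with
      | base => exact ⟨r, by simp⟩
      | succ N _ ih =>
        obtain ⟨r', h⟩ := ih
        refine ⟨r' * s (N + 1), ?_⟩
        rw [← sub_add_sub_cancel _ (Finsupp.single N r')]
        exact add_mem h ⟨Finsupp.single N r', by rw [hφ, hσ]⟩
  have h3 : LinearMap.range φ = LinearMap.ker π := by
    refine le_antisymm (by rintro _ ⟨c, rfl⟩; exact h1 c) fun u hu => ?_
    obtain ⟨N, r, c, h⟩ := (h2 u).exists
    have h4 := h1 c
    rw [h, map_sub, LinearMap.mem_ker.1 hu, zero_sub, neg_eq_zero] at h4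
    have h5 := hann N r ((hπ N r).symm.trans (congrArg Subtype.val h4))
    refine ⟨c + Finsupp.single N r, ?_⟩
    rw [map_add, h, hφ, hσ, h5]
    simp
  rw [pd_iff π hsurj, ← h3]
  exact Module.Projective.of_equiv (LinearEquiv.ofInjective φ hinj)

section Glue

variable {D : Type} [CommRing D] [IsLocalRing D]

abbrev LL (D : Type) [CommRing D] [IsLocalRing D] := HahnSeries ℚ (ResidueField D)

abbrev vl : AddValuation (LL D) (WithTop ℚ) := HahnSeries.addVal ℚ (ResidueField D)

def cc : D →+* LL D := HahnSeries.C.comp (residue D)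

def TT (q : ℚ) : LL D := HahnSeries.single q 1

theorem vl_cc (a : D) : 0 ≤ vl (cc a) := by
  rw [HahnSeries.addVal_apply]
  exact HahnSeries.orderTop_single_le

theorem vl_TT (q : ℚ) : vl (TT q : LL D) = q := by
  rw [HahnSeries.addVal_apply]
  exact HahnSeries.orderTop_single one_ne_zero

theorem TT_mul (p q : ℚ) : (TT p * TT q : LL D) = TT (p + q) := by
  simp [TT, HahnSeries.single_mul_single]

theorem cc_of_mem {a : D} (h : a ∈ maximalIdeal D) : cc a = 0 := by
  simp [cc, (residue_eq_zero_iff a).2 h]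

theorem pos_mul {x y : LL D} (hx : 0 < vl x) (hy : 0 ≤ vl y) : 0 < vl (x * y) := by
  rw [AddValuation.map_mul]
  exact hx.trans_le (le_add_of_nonneg_right hy)

variable (D) in
/-- pairs of an element of D and a Hahn series with constant term its residue -/
def Rl : Subring (D × LL D) where
  carrier := {p | 0 < vl (p.2 - cc p.1)}
  mul_mem' := fun {p q} hp hq => by
    have e : (p * q).2 - cc (p * q).1 = (p.2 - cc p.1) * (q.2 - cc q.1) +
        ((p.2 - cc p.1) * cc q.1 + (q.2 - cc q.1) * cc p.1) := by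
      simp only [Prod.snd_mul, Prod.fst_mul, map_mul]; ring
    show 0 < vl _
    rw [e]
    exact vl.map_lt_add (pos_mul hp (le_of_lt hq))
      (vl.map_lt_add (pos_mul hp (vl_cc _)) (pos_mul hq (vl_cc _)))
  one_mem' := by simp
  add_mem' := fun {p q} hp hq => by
    show 0 < vl _
    rw [Prod.snd_add, Prod.fst_add, map_add, add_sub_add_comm]
    exact vl.map_lt_add hp hq
  zero_mem' := by simp
  neg_mem' := fun {p} hp => by
    show 0 < vl _
    rw [Prod.snd_neg, Prod.fst_neg, map_neg, neg_sub_neg, ← neg_sub, AddValuation.map_neg]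
    exact hp

def p1 : Rl D →+* D := (RingHom.fst _ _).comp (Rl D).subtype

def p2 : Rl D →+* LL D := (RingHom.snd _ _).comp (Rl D).subtype

theorem ext_Rl {r s : Rl D} (h1 : p1 r = p1 s) (h2 : p2 r = p2 s) : r = s :=
  Subtype.ext (Prod.ext h1 h2)

theorem vl_sub (r : Rl D) : 0 < vl (p2 r - cc (p1 r)) := r.2

theorem vl_p2 (r : Rl D) : 0 ≤ vl (p2 r) := by
  rw [← sub_add_cancel (p2 r) (cc (p1 r))]
  exact vl.map_le_add (vl_sub r).le (vl_cc _)

theorem isUnit_of {r : Rl D} (h : IsUnit (p1 r)) : IsUnit r := by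
  obtain ⟨b, hb⟩ := h.exists_right_inv
  have h1 : cc (p1 r) * cc b = 1 := by rw [← map_mul, hb, map_one]
  have h2 : vl (cc (p1 r)) = 0 := by
    have h3 := congrArg vl h1
    rw [AddValuation.map_mul, AddValuation.map_one] at h3
    exact le_antisymm (h3 ▸ le_add_of_nonneg_right (vl_cc b)) (vl_cc _)
  have h3 : vl (p2 r) = 0 := by
    rw [← add_sub_cancel (cc (p1 r)) (p2 r), vl.map_add_eq_of_lt_left (h2 ▸ vl_sub r), h2]
  have h4 : p2 r ≠ 0 := fun h0 => by simp [h0] at h3
  have h5 : vl (p2 r)⁻¹ = 0 := by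
    have := congrArg vl (mul_inv_cancel₀ h4)
    rwa [AddValuation.map_mul, AddValuation.map_one, h3, zero_add] at this
  refine IsUnit.of_mul_eq_one (⟨(b, (p2 r)⁻¹), ?_⟩ : Rl D) (ext_Rl hb (mul_inv_cancel₀ h4))
  have e : (p2 r)⁻¹ - cc b = -((p2 r - cc (p1 r)) * (p2 r)⁻¹ * cc b) := by
    linear_combination (exp := 1) (cc b) * mul_inv_cancel₀ h4 - (p2 r)⁻¹ * h1
  show 0 < vl ((p2 r)⁻¹ - cc b)
  rw [e, AddValuation.map_neg]
  exact pos_mul (pos_mul (vl_sub r) h5.ge) (vl_cc _)

instance : IsLocalRing (Rl D) :=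
  IsLocalRing.of_isUnit_or_isUnit_one_sub_self fun a =>
    (isUnit_or_isUnit_one_sub_self (p1 a)).imp isUnit_of fun h => isUnit_of (by simpa using h)

theorem mem_maxl {r : Rl D} : r ∈ maximalIdeal (Rl D) ↔ p1 r ∈ maximalIdeal D :=
  not_congr ⟨fun h => h.map p1, isUnit_of⟩

def hatl (a : D) (h : a ∈ maximalIdeal D) : Rl D := ⟨(a, 0), by
  show 0 < vl (0 - cc a)
  simp [cc_of_mem h]⟩

def tl (x : LL D) (h : 0 < vl x) : Rl D := ⟨(0, x), by
  show 0 < vl (x - cc 0)
  simpa using h⟩

@[simp] theorem p1_hatl (a : D) (h) : p1 (hatl a h) = a := rfl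
@[simp] theorem p2_hatl (a : D) (h) : p2 (hatl a h) = 0 := rfl
@[simp] theorem p1_tl (x : LL D) (h) : p1 (tl x h) = 0 := rfl
@[simp] theorem p2_tl (x : LL D) (h) : p2 (tl x h) = x := rfl

theorem weakly (hzd : ∀ a ∈ maximalIdeal D, ∃ t ∈ maximalIdeal D,
      t ∉ maximalIdeal D * maximalIdeal D ∧ t * t = 0 ∧ t * a = 0) (n : ℕ) (J : Ideal (Rl D))
    (hJ : J.FG) (hpd : HasProjectiveDimensionLE (ModuleCat.of (Rl D) J) n) :
    Module.FinitePresentation (Rl D) J := by
  by_cases h1 : J = ⊤
  · subst h1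
    exact Module.FinitePresentation.of_equiv Submodule.topEquiv.symm
  have h2 : J = ⊥ := by
    refine Submodule.eq_bot_of_le_smul_of_le_jacobson_bot (maximalIdeal (Rl D)) _ hJ
      (fun g hg => ?_) (maximalIdeal_le_jacobson _)
    by_contra hne
    obtain ⟨t, ht, ht2, htt, htg⟩ := hzd _ (mem_maxl.1 (le_maximalIdeal h1 hg))
    refine not_pd (m := maximalIdeal (Rl D)) (t := hatl t ht) (mem_maxl.2 ht) (fun h => ht2 ?_)
      (ext_Rl (by simpa using htt) (by simp)) n J ⟨g, hg⟩ (fun h => hne ?_)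
      (Subtype.ext (ext_Rl (by simpa using htg) (by simp))) hpd
    · have h3 := Ideal.mem_map_of_mem p1 h
      rw [Ideal.map_mul] at h3
      have h4 : (maximalIdeal (Rl D)).map p1 ≤ maximalIdeal D :=
        Ideal.map_le_iff_le_comap.2 fun r hr => mem_maxl.1 hr
      exact Ideal.mul_mono h4 h4 h3
    · simpa using (Submodule.mem_smul_top_iff _ J ⟨g, hg⟩).1 h
  subst h2
  exact Module.finitePresentation_of_projective _ _

def gam (i : ℕ) : ℚ := (1 / 2) ^ i

theorem gam_pos (i : ℕ) : 0 < gam i := by unfold gam; positivity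

def ss (i : ℕ) : Rl D := tl (TT (gam i)) (by rw [vl_TT]; exact_mod_cast gam_pos i)

theorem gam_lt {x : WithTop ℚ} (h : 0 < x) : ∀ᶠ i in atTop, (gam i : WithTop ℚ) < x := by
  induction x with
  | top => exact Eventually.of_forall fun i => WithTop.coe_lt_top _
  | coe q =>
    obtain ⟨n, hn⟩ := exists_pow_lt_of_lt_one (show 0 < q by exact_mod_cast h)
      (show (1 / 2 : ℚ) < 1 by norm_num)
    filter_upwards [eventually_ge_atTop n] with i hi
    exact WithTop.coe_lt_coe.2
      ((pow_le_pow_of_le_one (by norm_num) (by norm_num) hi).trans_lt hn)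

theorem vl_ker {g : Rl D} (h : g ∈ RingHom.ker (p1 : Rl D →+* D)) : 0 < vl (p2 g) := by
  simpa [RingHom.mem_ker.1 h] using vl_sub g

theorem ker_pd : HasProjectiveDimensionLE
    (ModuleCat.of (Rl D) (RingHom.ker (p1 : Rl D →+* D))) 1 := by
  refine pd_chain _ ss (fun i => rfl) (fun i => ext_Rl (by simp [ss]) ?_) (fun g hg => ?_)
    fun i r h => ?_
  · simp only [ss, map_mul, p2_tl, TT_mul, gam]
    congr 1
    ring
  · obtain ⟨i, hi⟩ := (gam_lt (vl_ker hg)).exists
    refine ⟨i, tl (p2 g * TT (-gam i)) ?_, ext_Rl (by simpa [ss] using hg) ?_⟩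
    · rw [AddValuation.map_mul, vl_TT]
      generalize vl (p2 g) = x at hi
      induction x with
      | top => simp
      | coe q =>
        have : gam i < q := WithTop.coe_lt_coe.1 hi
        exact_mod_cast (by linarith : 0 < q + -gam i)
    · simp only [ss, map_mul, p2_tl, mul_assoc, TT_mul, neg_add_cancel]
      exact (mul_one _).symm
  · have h1 := congrArg p2 h
    simp only [ss, map_mul, p2_tl, map_zero] at h1
    have h2 : p2 r = 0 := (mul_eq_zero.1 h1).resolve_right (by simp [TT])
    exact ext_Rl (by simp [ss]) (by simp [h2])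

theorem ker_not_fg : ¬ (RingHom.ker (p1 : Rl D →+* D)).FG := by
  rintro ⟨s, hs⟩
  have h1 : ∀ᶠ i in atTop, ∀ g ∈ s, (gam i : WithTop ℚ) < vl (p2 g) :=
    (eventually_all_finset s).2 fun g hg => gam_lt (vl_ker (hs ▸ Ideal.subset_span hg))
  obtain ⟨i, hi⟩ := h1.exists
  have h2 : ∀ g ∈ Ideal.span (s : Set (Rl D)), (gam i : WithTop ℚ) < vl (p2 g) := fun g hg => by
    induction hg using Submodule.span_induction with
    | mem g hg => exact hi g hg
    | zero => simp
    | add a b _ _ ha hb => rw [map_add]; exact vl.map_lt_add ha hb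
    | smul r a _ ha =>
      rw [smul_eq_mul, map_mul, AddValuation.map_mul]
      exact ha.trans_le (le_add_of_nonneg_left (vl_p2 r))
  have h3 := h2 (ss i) (by rw [hs]; rfl)
  rw [ss, p2_tl, vl_TT] at h3
  exact lt_irrefl _ h3

theorem not_lee {x y : D} (hx : x ∈ maximalIdeal D) (hy : y ∈ maximalIdeal D)
    (hxy : ∀ d, d * x = 0 → d * y = 0 → d = 0) :
    ∃ K : Submodule (Rl D) (Fin 2 → Rl D), K.FG ∧
      HasProjectiveDimensionLE (ModuleCat.of (Rl D) K) 2 ∧ ¬ Module.FinitePresentation (Rl D) K := by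
  let f := LinearMap.toSpanSingleton (Rl D) (Fin 2 → Rl D) ![hatl x hx, hatl y hy]
  have hker : LinearMap.ker f.rangeRestrict = RingHom.ker (p1 : Rl D →+* D) := by
    rw [LinearMap.ker_rangeRestrict]
    ext r
    rw [LinearMap.mem_ker, RingHom.mem_ker, LinearMap.toSpanSingleton_apply]
    constructor
    · intro h
      exact hxy _ (by simpa using congrArg p1 (congrFun h 0))
        (by simpa using congrArg p1 (congrFun h 1))
    · intro h
      funext i
      fin_cases i <;> exact ext_Rl (by simp [h]) (by simp)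
  refine ⟨LinearMap.range f, Submodule.fg_range f, ?_, fun h => ?_⟩
  · exact pd_succ f.rangeRestrict f.surjective_rangeRestrict 1 (hker ▸ ker_pd)
  · have := Module.FinitePresentation.fg_ker f.rangeRestrict f.surjective_rangeRestrict
    rw [hker] at this
    exact ker_not_fg this

end Glue

theorem main_local : ∃ (R : Type) (_ : CommRing R) (_ : IsLocalRing R),
    (∀ (n : ℕ) (I : Ideal R), I.FG → HasProjectiveDimensionLE (ModuleCat.of R I) n →
      Module.FinitePresentation R I) ∧
    ∃ K : Submodule R (Fin 2 → R), K.FG ∧ HasProjectiveDimensionLE (ModuleCat.of R K) 2 ∧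
      ¬ Module.FinitePresentation R K :=
  ⟨Rl Dd, inferInstance, inferInstance, weakly zero_div_all,
    not_lee (x := TrivSqZeroExt.inl PowerSeries.X)
      (y := TrivSqZeroExt.inl (PowerSeries.C PowerSeries.X))
      (mem_max.2 PowerSeries.X_prime.not_isUnit)
      (mem_max.2 fun h => PowerSeries.X_prime.not_isUnit
        (by simpa using h.map (PowerSeries.constantCoeff (R := PowerSeries ℚ)))) faithful⟩

end

end Pool.Agent.P.MP_0b9bd1_al.Loc
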