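import Mathlib

open CategoryTheory Filter IsLocalRing

namespace Pool.Agent.P.MP_0b9bd1_al

noncomputable section

theorem pd_iff {R M N : Type} [Ring R] [AddCommGroup M] [Module R M] [AddCommGroup N] [Module R N]
    [Module.Projective R M] (f : M →ₗ[R] N) (hf : Function.Surjective f) :
    HasProjectiveDimensionLE (ModuleCat.of R N) 1 ↔ Module.Projective R (LinearMap.ker f) := by
  have h := (LinearMap.shortExact_shortComplexKer hf).hasProjectiveDimensionLT_X₃_iff 0
    ((IsProjective.iff_projective M).1 inferInstance)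
  rw [IsProjective.iff_projective, projective_iff_hasProjectiveDimensionLT_one]
  exact h

theorem pd_retract {R M N : Type} [Ring R] [AddCommGroup M] [Module R M] [AddCommGroup N]
    [Module R N] (i : M →ₗ[R] N) (p : N →ₗ[R] M) (h : ∀ x, p (i x) = x)
    (hN : HasProjectiveDimensionLE (ModuleCat.of R N) 1) :
    HasProjectiveDimensionLE (ModuleCat.of R M) 1 :=
  Retract.hasProjectiveDimensionLT (X := ModuleCat.of R M) (Y := ModuleCat.of R N)
    ⟨ModuleCat.ofHom i, ModuleCat.ofHom p, ModuleCat.hom_ext (LinearMap.ext h)⟩ 2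

section Glue

variable (D : Type) [CommRing D] [IsLocalRing D]

/-- pairs (d, f) with f a sequence in the residue field eventually equal to the residue of d -/
def Rg : Subring (D × (ℕ → ResidueField D)) where
  carrier := {p | ∀ᶠ n in atTop, p.2 n = residue D p.1}
  mul_mem' := fun {p q} hp hq => by
    filter_upwards [hp, hq] with n h1 h2
    simp [h1, h2]
  one_mem' := Eventually.of_forall fun n => by simp
  add_mem' := fun {p q} hp hq => by
    filter_upwards [hp, hq] with n h1 h2
    simp [h1, h2]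
  zero_mem' := Eventually.of_forall fun n => by simp
  neg_mem' := fun {p} hp => by
    filter_upwards [hp] with n h1
    simp [h1]

variable {D}

/-- first component -/
def pi1 : Rg D →+* D := (RingHom.fst _ _).comp (Rg D).subtype

/-- value at n -/
def ev (n : ℕ) : Rg D →+* ResidueField D :=
  (Pi.evalRingHom _ n).comp ((RingHom.snd _ _).comp (Rg D).subtype)

theorem ext_Rg {r s : Rg D} (h1 : pi1 r = pi1 s) (h2 : ∀ n, ev n r = ev n s) : r = s :=
  Subtype.ext (Prod.ext h1 (funext h2))

theorem ev_eventually (r : Rg D) : ∀ᶠ n in atTop, ev n r = residue D (pi1 r) := r.2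

/-- build an element -/
def mkR (d : D) (f : ℕ → ResidueField D) (h : ∀ᶠ n in atTop, f n = residue D d) : Rg D := ⟨(d, f), h⟩

@[simp] theorem pi1_mkR (d : D) (f : ℕ → ResidueField D) (h : ∀ᶠ n in atTop, f n = residue D d) : pi1 (mkR d f h) = d := rfl
@[simp] theorem ev_mkR (d : D) (f : ℕ → ResidueField D) (h : ∀ᶠ n in atTop, f n = residue D d) (n : ℕ) : ev n (mkR d f h) = f n := rfl

/-- the idempotent at n -/
def idem (n : ℕ) : Rg D := mkR 0 (Pi.single n 1) (by
  filter_upwards [eventually_gt_atTop n] with k hk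
  simp [Pi.single_eq_of_ne hk.ne'])

@[simp] theorem pi1_idem (n : ℕ) : pi1 (idem n : Rg D) = 0 := rfl
theorem ev_idem (n k : ℕ) : ev k (idem n : Rg D) = if k = n then 1 else 0 := by
  show (Pi.single n 1 : ℕ → ResidueField D) k = _
  rw [Pi.single_apply]

/-- the element (d, 0) -/
def hat (d : D) (hd : d ∈ maximalIdeal D) : Rg D := mkR d 0 (Eventually.of_forall fun n => by
  simp [(residue_eq_zero_iff d).2 hd])

@[simp] theorem pi1_hat (d : D) (hd) : pi1 (hat d hd) = d := rfl
@[simp] theorem ev_hat (d : D) (hd) (n : ℕ) : ev n (hat d hd) = 0 := rfl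

/-- the constant lift -/
def cst (d : D) : Rg D := mkR d (fun _ => residue D d) (Eventually.of_forall fun _ => rfl)

@[simp] theorem pi1_cst (d : D) : pi1 (cst d) = d := rfl

theorem mem_max_of_ev {r : Rg D} (h : ∀ n, ev n r = 0) : pi1 r ∈ maximalIdeal D := by
  obtain ⟨n, hn⟩ := (ev_eventually r).exists
  rw [← residue_eq_zero_iff, ← hn, h]

theorem finite_supp {r : Rg D} (h : pi1 r ∈ maximalIdeal D) : {n | ev n r ≠ 0}.Finite := by
  have h1 := ev_eventually r
  rw [(residue_eq_zero_iff _).2 h, ← Nat.cofinite_eq_atTop] at h1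
  exact h1

theorem ker_projective : Module.Projective (Rg D) (RingHom.ker (pi1 : Rg D →+* D)) := by
  classical
  let e : ℕ → RingHom.ker (pi1 : Rg D →+* D) := fun n => ⟨idem n, rfl⟩
  have hfin : ∀ p : RingHom.ker (pi1 : Rg D →+* D), {n | ev n p.1 ≠ 0}.Finite := fun p =>
    finite_supp (by rw [show pi1 p.1 = 0 from p.2]; exact zero_mem _)
  have hsupp : ∀ (p : RingHom.ker (pi1 : Rg D →+* D)) (n : ℕ), p.1 * idem n ≠ 0 →
      n ∈ (hfin p).toFinset := by
    intro p n h
    rw [Set.Finite.mem_toFinset]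
    intro h0
    apply h
    refine ext_Rg (by simp) fun k => ?_
    rw [map_mul, ev_idem, map_zero]
    split_ifs with hk
    · rw [hk, h0, zero_mul]
    · rw [mul_zero]
  let i : RingHom.ker (pi1 : Rg D →+* D) →ₗ[Rg D] (ℕ →₀ Rg D) :=
    { toFun := fun p => Finsupp.onFinset (hfin p).toFinset (fun n => p.1 * idem n) (hsupp p)
      map_add' := fun p q => by ext n : 1; simp [add_mul]
      map_smul' := fun r p => by ext n : 1; simp [mul_assoc] }
  refine Module.Projective.of_split i (Finsupp.linearCombination (Rg D) e) ?_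
  ext p : 1
  apply Subtype.ext
  have hsub : (i p).support ⊆ (hfin p).toFinset :=
    Finsupp.support_onFinset_subset (hf := hsupp p)
  rw [LinearMap.comp_apply, Finsupp.linearCombination_apply,
    Finsupp.sum_of_support_subset (i p) hsub _ (by simp)]
  rw [Submodule.coe_sum]
  refine ext_Rg ?_ fun k => ?_
  · simp [e, show pi1 p.1 = 0 from p.2]
  · simp only [i, e, LinearMap.coe_mk, AddHom.coe_mk, Finsupp.onFinset_apply, SetLike.val_smul,
      smul_eq_mul, map_sum, map_mul, ev_idem, mul_ite, mul_one, mul_zero, LinearMap.id_apply]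
    rw [Finset.sum_eq_single k]
    · simp
    · intro b _ hb
      simp [hb.symm]
    · intro hk
      rw [Set.Finite.mem_toFinset] at hk
      simpa using hk

theorem ker_not_fg : ¬ (RingHom.ker (pi1 : Rg D →+* D)).FG := by
  rintro ⟨s, hs⟩
  have h1 : ∀ᶠ n in atTop, ∀ g ∈ s, ev n g = 0 := by
    rw [eventually_all_finset]
    intro g hg
    have : pi1 g = 0 := by
      have : g ∈ RingHom.ker (pi1 : Rg D →+* D) := hs ▸ Ideal.subset_span hg
      exact this
    simpa [this] using ev_eventually g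
  obtain ⟨n, hn⟩ := h1.exists
  have h2 : Ideal.span (s : Set (Rg D)) ≤ RingHom.ker (ev n) := Ideal.span_le.2 fun g hg => hn g hg
  have h3 : idem n ∈ RingHom.ker (ev n : Rg D →+* _) := h2 (by rw [hs]; rfl)
  rw [RingHom.mem_ker, ev_idem] at h3
  simp at h3

theorem not_lee {x y : D} (hx : x ∈ maximalIdeal D) (hy : y ∈ maximalIdeal D)
    (hxy : ∀ d, d * x = 0 → d * y = 0 → d = 0) :
    ∃ K : Submodule (Rg D) (Fin 2 → Rg D), K.FG ∧
      HasProjectiveDimensionLE (ModuleCat.of (Rg D) K) 1 ∧ ¬ Module.FinitePresentation (Rg D) K := by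
  let f := LinearMap.toSpanSingleton (Rg D) (Fin 2 → Rg D) ![hat x hx, hat y hy]
  have hker : LinearMap.ker f.rangeRestrict = RingHom.ker (pi1 : Rg D →+* D) := by
    rw [LinearMap.ker_rangeRestrict]
    ext r
    rw [LinearMap.mem_ker, RingHom.mem_ker, LinearMap.toSpanSingleton_apply]
    constructor
    · intro h
      exact hxy _ (by simpa using congrArg pi1 (congrFun h 0))
        (by simpa using congrArg pi1 (congrFun h 1))
    · intro h
      funext i
      fin_cases i <;> exact ext_Rg (by simp [h]) (by simp)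
  refine ⟨LinearMap.range f, Submodule.fg_range f, ?_, fun h => ?_⟩
  · rw [pd_iff f.rangeRestrict f.surjective_rangeRestrict, hker]
    exact ker_projective
  · have := Module.FinitePresentation.fg_ker f.rangeRestrict f.surjective_rangeRestrict
    rw [hker] at this
    exact ker_not_fg this

theorem mem_sq {I : Ideal (Rg D)} {g : Rg D} (hg : g ∈ I) (h0 : pi1 g = 0) : g ∈ I * I := by
  let g' : Rg D := mkR 0 (fun n => (ev n g)⁻¹) (by
    filter_upwards [ev_eventually g] with n hn
    simp [hn, h0])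
  have : g = g * (g * g') := by
    refine ext_Rg (by simp [h0]) fun n => ?_
    have e : ev n g' = (ev n g)⁻¹ := rfl
    simp only [map_mul, e]
    by_cases h : ev n g = 0
    · simp [h]
    · field_simp
  rw [this]
  exact Ideal.mul_mem_mul hg (I.mul_mem_right _ hg)

theorem hat_mem {I : Ideal (Rg D)} {g : Rg D} (hg : g ∈ I) (h : pi1 g ∈ maximalIdeal D) :
    hat (pi1 g) h ∈ I := by
  classical
  let c : Rg D := mkR 1 (fun n => if ev n g = 0 then 1 else 0) (by
    filter_upwards [ev_eventually g] with n hn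
    simp [hn, (residue_eq_zero_iff _).2 h])
  have : hat (pi1 g) h = g * c := by
    have e1 : pi1 c = 1 := rfl
    refine ext_Rg (by simp [e1]) fun n => ?_
    have e : ev n c = if ev n g = 0 then 1 else 0 := rfl
    simp only [map_mul, e, ev_hat]
    split_ifs with h1
    · simp [h1]
    · simp
  rw [this]
  exact I.mul_mem_right _ hg

/-- an element of a projective submodule, killed by all the idempotents, is zero, provided
that the first components of all entries lie in the maximal ideal -/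
theorem bass {ι : Type} (L : Submodule (Rg D) (ι → Rg D)) [hL : Module.Projective (Rg D) L]
    (hm : ∀ l ∈ L, ∀ i, pi1 (l i) ∈ maximalIdeal D)
    (hhat : ∀ l (hl : l ∈ L), (fun i => hat (pi1 (l i)) (hm l hl i)) ∈ L)
    (l : L) (hl : ∀ i n, ev n (l.1 i) = 0) : l = 0 := by
  classical
  obtain ⟨s, hs⟩ := Module.projective_def.1 hL
  have kill : ∀ t : L, (∀ i n, ev n (t.1 i) = 0) → ∀ j n, ev n (s t j) = 0 := by
    intro t ht j n
    have h1 : (idem n : Rg D) • t = 0 := by
      apply Subtype.ext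
      funext i
      exact ext_Rg (by simp) (fun k => by simp [ht])
    have h2 : idem n * s t j = 0 := by
      rw [← smul_eq_mul, ← Finsupp.smul_apply, ← map_smul, h1, map_zero, Finsupp.zero_apply]
    simpa [ev_idem] using congrArg (ev n) h2
  let h : L → L := fun t => ⟨_, hhat t.1 t.2⟩
  have hl1 : l = ∑ j ∈ (s l).support, s l j • j := by
    conv_lhs => rw [← hs l]
    rw [Finsupp.linearCombination_apply]
    rfl
  have hl2 : ∀ j, s l j • j = s l j • h j := by
    intro j
    apply Subtype.ext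
    funext i
    exact ext_Rg (by simp [h]) (fun k => by simp [kill l hl])
  let C : Ideal D := Ideal.span ((fun j => pi1 (s l j)) '' (s l).support)
  have hC : C = ⊥ := by
    refine Submodule.eq_bot_of_le_smul_of_le_jacobson_bot (maximalIdeal D) C
      (Submodule.fg_span ((Finset.finite_toSet _).image _)) ?_ (maximalIdeal_le_jacobson _)
    refine Ideal.span_le.2 ?_
    rintro _ ⟨i, -, rfl⟩
    have h3 : s l i = ∑ j ∈ (s l).support, s l j * s (h j) i := by
      conv_lhs => rw [hl1]
      simp only [hl2, map_sum, map_smul, Finsupp.finsetSum_apply, Finsupp.smul_apply, smul_eq_mul]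
    show pi1 (s l i) ∈ maximalIdeal D • C
    rw [h3, map_sum]
    refine Submodule.sum_mem _ fun j hj => ?_
    rw [map_mul, mul_comm]
    exact Submodule.smul_mem_smul (mem_max_of_ev (kill (h j) (fun _ _ => rfl) i))
      (Ideal.subset_span ⟨j, hj, rfl⟩)
  rw [hl1]
  refine Finset.sum_eq_zero fun j hj => ?_
  have h4 : pi1 (s l j) ∈ C := Ideal.subset_span ⟨j, hj, rfl⟩
  rw [hC, Ideal.mem_bot] at h4
  rw [ext_Rg (r := s l j) (s := 0) (by simp [h4]) (fun n => by simp [kill l hl]), zero_smul]

theorem map_eq_bot (hzd : ∀ a ∈ maximalIdeal D, ∃ b, b ≠ 0 ∧ b * a = 0) {I : Ideal (Rg D)}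
    (hI : I.FG) (hpd : HasProjectiveDimensionLE (ModuleCat.of (Rg D) I) 1)
    (hm : ∀ g ∈ I, pi1 g ∈ maximalIdeal D) : ∀ g ∈ I, pi1 g = 0 := by
  classical
  have hsurj : Function.Surjective (pi1 : Rg D →+* D) := fun d => ⟨cst d, rfl⟩
  have hJ : ∃ n, ∃ s : Finset D, s.card = n ∧ Ideal.span (s : Set D) = I.map pi1 := by
    obtain ⟨s, hs⟩ := hI.map (pi1 : Rg D →+* D)
    exact ⟨_, s, rfl, hs⟩
  obtain ⟨s, hcard, hs⟩ := Nat.find_spec hJ
  have hsI : ∀ d : s, ∃ g ∈ I, pi1 g = d.1 := fun d =>
    (Ideal.mem_map_iff_of_surjective _ hsurj).1 (hs ▸ Ideal.subset_span d.2)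
  have hsm : ∀ d : s, d.1 ∈ maximalIdeal D := fun d => by
    obtain ⟨g, hg, e⟩ := hsI d
    exact e ▸ hm g hg
  have hshat : ∀ d : s, hat d.1 (hsm d) ∈ I := fun d => by
    obtain ⟨g, hg, e⟩ := hsI d
    have := hat_mem hg (hm g hg)
    convert this using 2
    exact e.symm
  have hsyz : ∀ σ : s → D, ∑ d, σ d * d.1 = 0 → ∀ d, σ d ∈ maximalIdeal D := by
    intro σ hσ d
    by_contra hu
    obtain ⟨u, hu⟩ := notMem_maximalIdeal.1 hu
    have h1 : d.1 ∈ Ideal.span ((s.erase d.1 : Finset D) : Set D) := by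
      rw [← Finset.add_sum_erase _ _ (Finset.mem_univ d), ← hu] at hσ
      have h2 : d.1 = -(↑u⁻¹ * ∑ e ∈ Finset.univ.erase d, σ e * e.1) := by
        rw [← eq_neg_iff_add_eq_zero] at hσ
        rw [← mul_neg, ← hσ, Units.inv_mul_cancel_left]
      have h4 : -(↑u⁻¹ * ∑ e ∈ Finset.univ.erase d, σ e * e.1) ∈
          Ideal.span ((s.erase d.1 : Finset D) : Set D) := ?_
      · rwa [← h2] at h4
      refine neg_mem (Ideal.mul_mem_left _ _ (Ideal.sum_mem _ fun e he => Ideal.mul_mem_left _ _
        (Ideal.subset_span ?_)))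
      exact Finset.mem_coe.2 (Finset.mem_erase.2
        ⟨fun h => (Finset.mem_erase.1 he).1 (Subtype.val_injective h), e.2⟩)
    have h3 : Ideal.span ((s.erase d.1 : Finset D) : Set D) = I.map pi1 := by
      rw [← hs]
      refine le_antisymm (Ideal.span_mono (Finset.coe_subset.2 (Finset.erase_subset _ _)))
        (Ideal.span_le.2 fun e he => ?_)
      by_cases h : e = d.1
      · rw [h]; exact h1
      · exact Ideal.subset_span (Finset.mem_coe.2 (Finset.mem_erase.2 ⟨h, he⟩))
    exact Nat.find_min hJ (hcard ▸ Finset.card_erase_lt_of_mem d.2) ⟨_, rfl, h3⟩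
  let f : (s → Rg D) →ₗ[Rg D] Rg D := Fintype.linearCombination (Rg D) fun d => hat d.1 (hsm d)
  have hf : ∀ l, f l = ∑ d, l d * hat d.1 (hsm d) := fun l => by
    simp [f, Fintype.linearCombination_apply]
  have hf0 : ∀ l, f l = 0 ↔ ∑ d, pi1 (l d) * d.1 = 0 := fun l => by
    rw [hf]
    constructor
    · intro h
      simpa using congrArg pi1 h
    · intro h
      exact ext_Rg (by simpa using h) (fun n => by simp)
  have hle : LinearMap.range f ≤ I := by
    rintro _ ⟨l, rfl⟩
    rw [hf]
    exact I.sum_mem fun d _ => I.mul_mem_left _ (hshat d)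
  have hp : ∀ g : I, hat (pi1 g.1) (hm _ g.2) ∈ LinearMap.range f := by
    intro g
    have h1 : pi1 g.1 ∈ Ideal.span (s : Set D) := hs ▸ Ideal.mem_map_of_mem _ g.2
    have h2 : pi1 g.1 ∈ Submodule.span D (Set.range (Subtype.val : s → D)) := by
      rwa [Subtype.range_coe]
    obtain ⟨c, hc⟩ := (Submodule.mem_span_range_iff_exists_fun D).1 h2
    refine ⟨fun d => cst (c d), ?_⟩
    rw [hf]
    exact ext_Rg (by simpa using hc) (fun n => by simp)
  let p : I →ₗ[Rg D] LinearMap.range f :=
    { toFun := fun g => ⟨_, hp g⟩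
      map_add' := fun g h => Subtype.ext (ext_Rg (by simp) (fun n => by simp))
      map_smul' := fun r g => Subtype.ext (ext_Rg (by simp) (fun n => by simp)) }
  have h1 := pd_retract (Submodule.inclusion hle) p (by
    rintro ⟨_, l, rfl⟩
    refine Subtype.ext (ext_Rg rfl fun n => ?_)
    show 0 = ev n (f l)
    simp [hf]) hpd
  rw [pd_iff f.rangeRestrict f.surjective_rangeRestrict, LinearMap.ker_rangeRestrict] at h1
  have hempty : s = ∅ := by
    rw [Finset.eq_empty_iff_forall_notMem]
    intro d hd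
    obtain ⟨b, hb, hbd⟩ := hzd d (hsm ⟨d, hd⟩)
    let σ : s → D := Pi.single ⟨d, hd⟩ b
    have hσ : ∑ e, σ e * e.1 = 0 := by
      rw [Finset.sum_eq_single ⟨d, hd⟩]
      · simpa [σ] using hbd
      · intro e _ he
        simp [σ, Pi.single_eq_of_ne he]
      · simp
    have h2 := bass (LinearMap.ker f) (fun l hl => hsyz _ ((hf0 l).1 hl))
      (fun l hl => (hf0 _).2 ((hf0 l).1 hl))
      ⟨fun e => hat (σ e) (hsyz σ hσ e), (hf0 _).2 hσ⟩ (fun _ _ => rfl)
    have h3 := congrArg pi1 (congrFun (congrArg Subtype.val h2) ⟨d, hd⟩)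
    simp [σ] at h3
    exact hb h3
  intro g hg
  have h2 : pi1 g ∈ Ideal.span (s : Set D) := hs ▸ Ideal.mem_map_of_mem _ hg
  simpa [hempty] using h2

theorem weakly_lee (hzd : ∀ a ∈ maximalIdeal D, ∃ b, b ≠ 0 ∧ b * a = 0) (I : Ideal (Rg D))
    (hI : I.FG) (hpd : HasProjectiveDimensionLE (ModuleCat.of (Rg D) I) 1) :
    Module.FinitePresentation (Rg D) I := by
  have hle : I ≤ I * I := by
    by_cases hm : ∀ g ∈ I, pi1 g ∈ maximalIdeal D
    · exact fun g hg => mem_sq hg (map_eq_bot hzd hI hpd hm g hg)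
    · push Not at hm
      obtain ⟨u, hu, hu'⟩ := hm
      obtain ⟨v, hv⟩ := (notMem_maximalIdeal.1 hu').exists_right_inv
      intro g hg
      have e : g = g * (u * cst v) + g * (1 - u * cst v) := by ring
      rw [e]
      exact add_mem (Ideal.mul_mem_mul hg (I.mul_mem_right _ hu))
        (mem_sq (I.mul_mem_right _ hg) (by simp [hv]))
  obtain ⟨e, he, rfl⟩ := (I.isIdempotentElem_iff_of_fg hI).1 (le_antisymm Ideal.mul_le_left hle)
  have : Module.Finite (Rg D) (Submodule.span (Rg D) {e}) := Module.Finite.iff_fg.2 hI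
  have : Module.Projective (Rg D) (Submodule.span (Rg D) {e}) := by
    refine Module.Projective.of_split (Submodule.span (Rg D) {e}).subtype
      (LinearMap.toSpanSingleton (Rg D) _ ⟨e, Submodule.mem_span_singleton_self e⟩) ?_
    ext ⟨x, hx⟩ : 1
    obtain ⟨a, rfl⟩ := Submodule.mem_span_singleton.1 hx
    apply Subtype.ext
    show (a * e) * e = a * e
    rw [mul_assoc, he.eq]
  exact Module.finitePresentation_of_projective _ _

end Glue

section Base

open PowerSeries

abbrev A := PowerSeries (PowerSeries ℚ)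

/-- primes missing one of the two variables -/
abbrev Idx := {p : PrimeSpectrum A // (X : A) ∉ p.asIdeal ∨ (C X : A) ∉ p.asIdeal}

abbrev M := (p : Idx) → A ⧸ p.1.asIdeal

abbrev Dd := TrivSqZeroExt A M

instance : IsLocalRing Dd :=
  IsLocalRing.of_isUnit_or_isUnit_one_sub_self (R := Dd) fun a => by
    rw [TrivSqZeroExt.isUnit_iff_isUnit_fst, TrivSqZeroExt.isUnit_iff_isUnit_fst,
      TrivSqZeroExt.fst_sub, TrivSqZeroExt.fst_one]
    exact isUnit_or_isUnit_one_sub_self _

theorem exists_idx {a : A} (ha : ¬ IsUnit a) : ∃ p : Idx, a ∈ p.1.asIdeal := by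
  by_contra h
  push Not at h
  have key : ∀ z : A, (∀ p : Ideal A, p.IsPrime → a ∈ p → z ∈ p) → ∃ n, a ∣ z ^ n := by
    intro z hz
    have : z ∈ (Ideal.span {a}).radical := by
      rw [Ideal.radical_eq_sInf, Ideal.mem_sInf]
      rintro p ⟨h1, h2⟩
      exact hz p h2 (h1 (Ideal.mem_span_singleton_self a))
    obtain ⟨n, hn⟩ := this
    exact ⟨n, Ideal.mem_span_singleton.1 hn⟩
  obtain ⟨n, hn⟩ := key X fun p hp hap => by
    by_contra h1
    exact h ⟨⟨p, hp⟩, Or.inl h1⟩ hap
  obtain ⟨k, hk⟩ := key (C X) fun p hp hap => by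
    by_contra h1
    exact h ⟨⟨p, hp⟩, Or.inr h1⟩ hap
  obtain ⟨i, -, hi⟩ := (dvd_prime_pow X_prime n).1 hn
  rcases i with _ | i
  · exact ha (associated_one_iff_isUnit.1 (by simpa using hi))
  · have h1 : (X : A) ∣ C X ^ k := ((dvd_pow_self X i.succ_ne_zero).trans hi.symm.dvd).trans hk
    have h2 := X_prime.dvd_of_dvd_pow h1
    rw [X_dvd_iff, constantCoeff_C] at h2
    exact X_ne_zero h2

theorem mem_max {d : Dd} : d ∈ maximalIdeal Dd ↔ ¬ IsUnit d.fst := by
  rw [mem_maximalIdeal, mem_nonunits_iff, TrivSqZeroExt.isUnit_iff_isUnit_fst]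

theorem zero_div (d : Dd) (hd : d ∈ maximalIdeal Dd) : ∃ b, b ≠ 0 ∧ b * d = 0 := by
  classical
  obtain ⟨p, hp⟩ := exists_idx (mem_max.1 hd)
  refine ⟨TrivSqZeroExt.inr (Pi.single p 1), fun h => ?_, ?_⟩
  · have h1 := congrFun (congrArg TrivSqZeroExt.snd h) p
    simp at h1
  · rw [mul_comm]
    ext : 1
    · simp
    · funext q
      simp only [TrivSqZeroExt.snd_mul, TrivSqZeroExt.snd_inr, TrivSqZeroExt.fst_inr,
        MulOpposite.op_zero, zero_smul, add_zero, TrivSqZeroExt.snd_zero, Pi.smul_apply,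
        Pi.zero_apply]
      by_cases hq : q = p
      · subst hq
        rw [Pi.single_eq_same, Algebra.smul_def, mul_one]
        exact Ideal.Quotient.eq_zero_iff_mem.2 hp
      · rw [Pi.single_eq_of_ne hq, smul_zero]

theorem faithful (d : Dd) (h1 : d * TrivSqZeroExt.inl X = 0) (h2 : d * TrivSqZeroExt.inl (C X) = 0) :
    d = 0 := by
  have f1 : d.fst = 0 := by
    have := congrArg TrivSqZeroExt.fst h1
    simpa [X_ne_zero] using this
  rw [mul_comm] at h1 h2
  ext : 1
  · exact f1
  · funext p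
    have key : ∀ z : A, TrivSqZeroExt.inl z * d = 0 → z ∉ p.1.asIdeal → d.snd p = 0 := by
      intro z hz hp
      have h3 := congrFun (congrArg TrivSqZeroExt.snd hz) p
      simp only [TrivSqZeroExt.snd_mul, TrivSqZeroExt.fst_inl, TrivSqZeroExt.snd_inl, smul_zero,
        add_zero, TrivSqZeroExt.snd_zero, Pi.smul_apply, Pi.zero_apply, Algebra.smul_def] at h3
      exact (mul_eq_zero.1 h3).resolve_left fun h => hp (Ideal.Quotient.eq_zero_iff_mem.1 h)
    exact p.2.elim (key _ h1) (key _ h2)

end Base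

theorem main : ∃ (R : Type) (_ : CommRing R),
    (∀ I : Ideal R, I.FG → HasProjectiveDimensionLE (ModuleCat.of R I) 1 →
      Module.FinitePresentation R I) ∧
    ∃ K : Submodule R (Fin 2 → R), K.FG ∧ HasProjectiveDimensionLE (ModuleCat.of R K) 1 ∧
      ¬ Module.FinitePresentation R K :=
  ⟨Rg Dd, inferInstance, weakly_lee zero_div,
    not_lee (x := TrivSqZeroExt.inl PowerSeries.X)
      (y := TrivSqZeroExt.inl (PowerSeries.C PowerSeries.X))
      (mem_max.2 PowerSeries.X_prime.not_isUnit)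
      (mem_max.2 fun h => PowerSeries.X_prime.not_isUnit
        (by simpa using h.map (PowerSeries.constantCoeff (R := PowerSeries ℚ)))) faithful⟩

end

end Pool.Agent.P.MP_0b9bd1_al
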