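import Pool.Agent.P.MP_0b9bd1_al.Main

/-- Earlier hand-in, now the case `d = 1` of `AllFiniteN`. -/
theorem Pool.Agent.P.MP_0b9bd1_al.VariantCounterexample.result :
    ∃ (R : Type) (_ : CommRing R),
      (∀ I : Ideal R, I.FG → CategoryTheory.HasProjectiveDimensionLE (ModuleCat.of R I) 1 →
        Module.FinitePresentation R I) ∧
      ∃ K : Submodule R (Fin 2 → R), K.FG ∧
        CategoryTheory.HasProjectiveDimensionLE (ModuleCat.of R K) 1 ∧
        ¬ Module.FinitePresentation R K :=
  Pool.Agent.P.MP_0b9bd1_al.main
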